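import Pool.Agent.Sebo.Lift

/-!
# Sebő's theorem

Components of the level sets of the distances in a bipartite graph with conservative weights `±1`.
-/

set_option autoImplicit false
set_option linter.unusedSectionVars false
set_option linter.unusedSimpArgs false

namespace Pool.Agent.Sebo

open Finset

variable {V E : Type*} [DecidableEq V] [DecidableEq E]
  {s t : E → V} {A : Finset E} {U : Finset V} {w : E → ℤ} {col : V → Bool} {r : V}
  {lam : V → ℤ}

open scoped Classical in
/-- The components of level `i`. -/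
noncomputable def comps (s t : E → V) (A : Finset E) (U : Finset V) (lam : V → ℤ) (i : ℤ) :
    Finset (Finset V) := (U.filter (fun u => lam u ≤ i)).image (cmp s t A U lam i)

theorem mem_comps {i : ℤ} {D : Finset V} : D ∈ comps s t A U lam i ↔
    ∃ u ∈ U, lam u ≤ i ∧ cmp s t A U lam i u = D := by
  classical
  unfold comps
  rw [mem_image]
  constructor
  · rintro ⟨u, hu, h⟩
    rw [mem_filter] at hu
    exact ⟨u, hu.1, hu.2, h⟩
  · rintro ⟨u, hu, h1, h2⟩
    exact ⟨u, mem_filter.2 ⟨hu, h1⟩, h2⟩

theorem conn_level {i : ℤ} {u v : V} (h : Conn s t A lam i u v) (hu : lam u ≤ i) : lam v ≤ i := by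
  induction h with
  | refl => exact hu
  | tail _ h _ => exact h.2.1

theorem cmp_eq {i : ℤ} {u v : V} (h : v ∈ cmp s t A U lam i u) :
    cmp s t A U lam i v = cmp s t A U lam i u := by
  rw [mem_cmp] at h
  ext x
  rw [mem_cmp, mem_cmp]
  exact ⟨fun hx => ⟨hx.1, h.2.trans hx.2⟩, fun hx => ⟨hx.1, h.2.symm.trans hx.2⟩⟩

theorem level_of_mem {i : ℤ} {D : Finset V} (hD : D ∈ comps s t A U lam i) {v : V} (hv : v ∈ D) :
    lam v ≤ i := by
  obtain ⟨u, _, hu, rfl⟩ := mem_comps.1 hD
  exact conn_level (mem_cmp.1 hv).2 hu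

theorem eq_cmp_of_mem {i : ℤ} {D : Finset V} (hD : D ∈ comps s t A U lam i) {v : V} (hv : v ∈ D) :
    D = cmp s t A U lam i v := by
  obtain ⟨u, _, _, rfl⟩ := mem_comps.1 hD
  exact (cmp_eq hv).symm

theorem cmp_mem_comps {i : ℤ} {u : V} (hu : u ∈ U) (h : lam u ≤ i) :
    cmp s t A U lam i u ∈ comps s t A U lam i := mem_comps.2 ⟨u, hu, h, rfl⟩

theorem self_mem_cmp {i : ℤ} {u : V} (hu : u ∈ U) : u ∈ cmp s t A U lam i u :=
  mem_cmp.2 ⟨hu, Relation.ReflTransGen.refl⟩

/-- Every vertex of level at most `i` is in exactly one component. -/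
theorem sum_mem_comps {i : ℤ} {y : V} (hy : y ∈ U) :
    ∑ D ∈ comps s t A U lam i, (if y ∈ D then (1 : ℤ) else 0) = if lam y ≤ i then 1 else 0 := by
  by_cases h : lam y ≤ i
  · rw [if_pos h, sum_eq_single (cmp s t A U lam i y), if_pos (self_mem_cmp hy)]
    · intro D hD hne
      rw [if_neg]
      intro hyD
      exact hne (eq_cmp_of_mem hD hyD)
    · intro h1
      exact absurd (cmp_mem_comps hy h) h1
  · rw [if_neg h]
    refine sum_eq_zero fun D hD => ?_
    rw [if_neg]
    intro hyD
    exact h (level_of_mem hD hyD)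

theorem cr_iff {D : Finset V} {e : E} : Cr s t D e ↔ ¬ (s e ∈ D ↔ t e ∈ D) := by
  unfold Cr
  tauto

/-- An edge crosses exactly one component. -/
theorem sum_cr_comps (hU : ∀ e ∈ A, s e ∈ U ∧ t e ∈ U) {e : E} (he : e ∈ A) {a c : V}
    (hac : (s e = a ∧ t e = c) ∨ (s e = c ∧ t e = a)) (hlam : lam c = lam a + 1) (i : ℤ) :
    ∑ D ∈ comps s t A U lam i, (if Cr s t D e then (1 : ℤ) else 0) =
      if i = lam a then 1 else 0 := by
  have hcr : ∀ D : Finset V, Cr s t D e ↔ ¬ (a ∈ D ↔ c ∈ D) := by
    intro D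
    rw [cr_iff]
    rcases hac with ⟨h1, h2⟩ | ⟨h1, h2⟩
    · rw [h1, h2]
    · rw [h1, h2]
      tauto
  have haU : a ∈ U := by
    rcases hac with ⟨h1, h2⟩ | ⟨h1, h2⟩
    · rw [← h1]; exact (hU e he).1
    · rw [← h2]; exact (hU e he).2
  have hcU : c ∈ U := by
    rcases hac with ⟨h1, h2⟩ | ⟨h1, h2⟩
    · rw [← h2]; exact (hU e he).2
    · rw [← h1]; exact (hU e he).1
  by_cases hi : i = lam a
  · rw [if_pos hi, sum_eq_single (cmp s t A U lam i a)]
    · rw [if_pos]
      rw [hcr]
      have h1 : a ∈ cmp s t A U lam i a := self_mem_cmp haU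
      intro h
      have h2 := level_of_mem (cmp_mem_comps haU (le_of_eq hi.symm)) (h.1 h1)
      omega
    · intro D hD hne
      rw [if_neg]
      rw [hcr, not_not]
      constructor
      · intro h
        exact absurd (eq_cmp_of_mem hD h) hne
      · intro h
        have := level_of_mem hD h
        omega
    · intro h
      exact absurd (cmp_mem_comps haU (le_of_eq hi.symm)) h
  · rw [if_neg hi]
    refine sum_eq_zero fun D hD => ?_
    rw [if_neg]
    rw [hcr, not_not]
    have hstep : lam c ≤ i → Step s t A lam i a c := fun h =>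
      ⟨by omega, h, e, he, hac⟩
    constructor
    · intro h
      have h1 := level_of_mem hD h
      have h2 : lam c ≤ i := by omega
      rw [eq_cmp_of_mem hD h, mem_cmp]
      exact ⟨hcU, Relation.ReflTransGen.single (hstep h2)⟩
    · intro h
      have h1 := level_of_mem hD h
      rw [eq_cmp_of_mem hD h, mem_cmp]
      exact ⟨haU, Relation.ReflTransGen.single (hstep h1).symm⟩

theorem exists_bounds (U : Finset V) (lam : V → ℤ) (i : ℤ) :
    ∃ m M : ℤ, m ≤ i ∧ i ≤ M ∧ ∀ v ∈ U, m ≤ lam v ∧ lam v ≤ M := by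
  obtain ⟨M, hM⟩ := (insert i (U.image lam)).exists_le
  obtain ⟨m, hm⟩ := (insert (-i) (U.image (fun v => -lam v))).exists_le
  refine ⟨-m, M, ?_, hM i (mem_insert_self _ _), fun v hv => ⟨?_, ?_⟩⟩
  · have := hm (-i) (mem_insert_self _ _)
    linarith
  · have := hm (-lam v) (mem_insert_of_mem (mem_image_of_mem _ hv))
    linarith
  · exact hM _ (mem_insert_of_mem (mem_image_of_mem _ hv))

/-- The level decomposition of a function on the edges. -/
theorem level_sum (hU : ∀ e ∈ A, s e ∈ U ∧ t e ∈ U)
    (hl : ∀ e ∈ A, lam (s e) = lam (t e) + 1 ∨ lam (t e) = lam (s e) + 1) {m M : ℤ}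
    (hmM : ∀ v ∈ U, m ≤ lam v ∧ lam v ≤ M) {e : E} (he : e ∈ A) :
    ∑ i ∈ Icc m M, ∑ D ∈ comps s t A U lam i, (if Cr s t D e then (1 : ℤ) else 0) = 1 := by
  rcases hl e he with h | h
  · rw [sum_congr rfl fun i _ => sum_cr_comps hU he (Or.inr ⟨rfl, rfl⟩) h i]
    rw [sum_ite_eq', if_pos]
    have := hmM _ (hU e he).2
    exact mem_Icc.2 this
  · rw [sum_congr rfl fun i _ => sum_cr_comps hU he (Or.inl ⟨rfl, rfl⟩) h i]
    rw [sum_ite_eq', if_pos]
    have := hmM _ (hU e he).1
    exact mem_Icc.2 this

theorem wt_cut (w : E → ℤ) (D : Finset V) (J : Finset E) :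
    wt w (cut s t D J) = ∑ e ∈ J, w e * (if Cr s t D e then (1 : ℤ) else 0) := by
  unfold wt cut
  rw [sum_filter]
  refine sum_congr rfl fun e _ => ?_
  split_ifs <;> simp

/-- The level decomposition of the weight. -/
theorem wt_level (hU : ∀ e ∈ A, s e ∈ U ∧ t e ∈ U)
    (hl : ∀ e ∈ A, lam (s e) = lam (t e) + 1 ∨ lam (t e) = lam (s e) + 1) {m M : ℤ}
    (hmM : ∀ v ∈ U, m ≤ lam v ∧ lam v ≤ M) {J : Finset E} (hJ : J ⊆ A) (w : E → ℤ) :
    ∑ i ∈ Icc m M, ∑ D ∈ comps s t A U lam i, wt w (cut s t D J) = wt w J := by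
  simp only [wt_cut]
  rw [sum_congr rfl fun i _ => sum_comm, sum_comm]
  unfold wt
  refine sum_congr rfl fun e he => ?_
  rw [sum_congr rfl fun i _ => (mul_sum _ _ _).symm, ← mul_sum, level_sum hU hl hmM (hJ he),
    mul_one]

theorem sum_level (y : V) {m M : ℤ} (hm : m ≤ lam y) (hM : lam y ≤ M) :
    ∑ i ∈ Icc m M, (if lam y ≤ i then (1 : ℤ) else 0) = M + 1 - lam y := by
  rw [← sum_filter]
  have h1 : (Icc m M).filter (fun i => lam y ≤ i) = Icc (lam y) M := by
    ext i
    rw [mem_filter, mem_Icc, mem_Icc]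
    constructor
    · rintro ⟨⟨_, h2⟩, h3⟩; exact ⟨h3, h2⟩
    · rintro ⟨h2, h3⟩; exact ⟨⟨by omega, h3⟩, h2⟩
  rw [h1, sum_const, Int.card_Icc, nsmul_eq_mul, mul_one]
  omega

theorem level_diff {x y : V} (hx : x ∈ U) (hy : y ∈ U) {m M : ℤ}
    (hmM : ∀ v ∈ U, m ≤ lam v ∧ lam v ≤ M) :
    ∑ i ∈ Icc m M, ∑ D ∈ comps s t A U lam i,
      ((if x ∈ D then (1 : ℤ) else 0) - (if y ∈ D then (1 : ℤ) else 0)) = lam y - lam x := by
  simp only [sum_sub_distrib, sum_mem_comps hx, sum_mem_comps hy]
  rw [sum_level x (hmM x hx).1 (hmM x hx).2, sum_level y (hmM y hy).1 (hmM y hy).2]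
  ring

/-- The parity of a cut. -/
theorem cut_parity {x y : V} {J : Finset E} (h : bd s t J = pt x + pt y) (D : Finset V) :
    ((cut s t D J).card : ZMod 2) = (if x ∈ D then 1 else 0) + (if y ∈ D then 1 else 0) := by
  rw [← handshake, h]
  simp only [Pi.add_apply, sum_add_distrib, pt_apply]
  rw [sum_ite_eq' _ x (fun _ => (1 : ZMod 2)), sum_ite_eq' _ y (fun _ => (1 : ZMod 2))]

/-- The weight of a set with at most one negative element. -/
theorem wt_one_neg {J : Finset E} {f : E} (hw : ∀ e ∈ J, w e = 1 ∨ w e = -1)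
    (hf : ∀ e ∈ J, w e = -1 → e = f) : ((J.card : ℤ) - 2 ≤ wt w J) ∧ (f ∉ J → wt w J = J.card) := by
  have h2 : f ∉ J → wt w J = J.card := by
    intro hfJ
    unfold wt
    rw [sum_congr rfl (g := fun _ => (1 : ℤ)), sum_const, nsmul_eq_mul, mul_one]
    intro e he
    rcases hw e he with h | h
    · exact h
    · exact absurd (hf e he h ▸ he) hfJ
  refine ⟨?_, h2⟩
  by_cases hfJ : f ∈ J
  · have h3 : wt w J = w f + wt w (J.erase f) := by
      unfold wt
      rw [add_sum_erase _ _ hfJ]
    have h4 : wt w (J.erase f) = (J.erase f).card := by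
      unfold wt
      rw [sum_congr rfl (g := fun _ => (1 : ℤ)), sum_const, nsmul_eq_mul, mul_one]
      intro e he
      rw [mem_erase] at he
      rcases hw e he.2 with h | h
      · exact h
      · exact absurd (hf e he.2 h) he.1
    have h5 := card_erase_add_one hfJ
    rcases hw f hfJ with h | h <;> rw [h3, h4, h] <;> omega
  · rw [h2 hfJ]; linarith

theorem odd_card {n : ℕ} (h : (n : ZMod 2) = 1) : 1 ≤ n := by
  rcases n with _ | n
  · exfalso
    revert h; decide
  · omega

theorem even_card {n : ℕ} (h : (n : ZMod 2) = 0) : n = 0 ∨ 2 ≤ n := by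
  rcases n with _ | _ | n
  · left; rfl
  · exfalso
    revert h; decide
  · right; omega

/-- A join crosses every component properly. -/
theorem cut_ge (hS : Sys s t A U w col) (hC : Concl s t A U w r lam) {i : ℤ} {D : Finset V}
    (hD : D ∈ comps s t A U lam i) {J : Finset E} (hJ : J ⊆ A) {y : V}
    (hb : bd s t J = pt r + pt y) :
    (if r ∈ D then (1 : ℤ) else 0) - (if y ∈ D then 1 else 0) ≤ wt w (cut s t D J) := by
  obtain ⟨u, hu, hui, rfl⟩ := mem_comps.1 hD
  have hpar := cut_parity hb (cmp s t A U lam i u)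
  obtain ⟨h1, h2⟩ := hC.2 i u hu hui
  have hunit : ∀ e ∈ cut s t (cmp s t A U lam i u) J, w e = 1 ∨ w e = -1 := fun e he =>
    hS.unit e (hJ (mem_cut.1 he).1)
  by_cases hr : r ∈ cmp s t A U lam i u
  · have h3 : wt w (cut s t (cmp s t A U lam i u) J) = (cut s t (cmp s t A U lam i u) J).card := by
      unfold wt
      rw [sum_congr rfl (g := fun _ => (1 : ℤ)), sum_const, nsmul_eq_mul, mul_one]
      intro e he
      exact h1 hr e (hJ (mem_cut.1 he).1) (mem_cut.1 he).2
    rw [h3]
    by_cases hy : y ∈ cmp s t A U lam i u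
    · rw [if_pos hr, if_pos hy]
      have := Nat.zero_le (cut s t (cmp s t A U lam i u) J).card
      omega
    · rw [if_pos hr, if_neg hy] at hpar ⊢
      rw [add_zero] at hpar
      have := odd_card hpar
      omega
  · obtain ⟨f, hf, hf1, hf2, hf3⟩ := h2 hr
    obtain ⟨h4, h5⟩ := wt_one_neg hunit fun e he hw =>
      hf3 e (hJ (mem_cut.1 he).1) (mem_cut.1 he).2 hw
    by_cases hy : y ∈ cmp s t A U lam i u
    · rw [if_neg hr, if_pos hy] at hpar ⊢
      rw [zero_add] at hpar
      have := odd_card hpar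
      omega
    · rw [if_neg hr, if_neg hy] at hpar ⊢
      rw [add_zero] at hpar
      rcases even_card hpar with h6 | h6
      · rw [card_eq_zero] at h6
        rw [h6, wt_empty]
        norm_num
      · omega

/-- A shortest join crosses every component in the least possible way. -/
theorem cut_tight (hS : Sys s t A U w col) (hr : r ∈ U) (hC : Concl s t A U w r lam) {i : ℤ}
    {D : Finset V} (hD : D ∈ comps s t A U lam i) {J : Finset E} (hJ : J ⊆ A) {y : V} (hy : y ∈ U)
    (hb : bd s t J = pt r + pt y) (hw : wt w J = lam y - lam r) :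
    wt w (cut s t D J) = (if r ∈ D then (1 : ℤ) else 0) - (if y ∈ D then 1 else 0) := by
  obtain ⟨m, M, hm, hM, hmM⟩ := exists_bounds U lam i
  have h1 := wt_level hS.ends hC.1 hmM hJ w
  have h2 := level_diff (s := s) (t := t) (A := A) hr hy hmM
  rw [hw] at h1
  have h3 : ∑ i ∈ Icc m M, ∑ D ∈ comps s t A U lam i, (wt w (cut s t D J) -
      ((if r ∈ D then (1 : ℤ) else 0) - (if y ∈ D then (1 : ℤ) else 0))) = 0 := by
    simp only [sum_sub_distrib] at h2 ⊢
    rw [h1, h2, sub_self]
  have h4 : ∀ i ∈ Icc m M, 0 ≤ ∑ D ∈ comps s t A U lam i, (wt w (cut s t D J) -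
      ((if r ∈ D then (1 : ℤ) else 0) - (if y ∈ D then (1 : ℤ) else 0))) := fun i _ =>
    sum_nonneg fun D hD => sub_nonneg.2 (cut_ge hS hC hD hJ hb)
  have h5 := (sum_eq_zero_iff_of_nonneg h4).1 h3 i (mem_Icc.2 ⟨hm, hM⟩)
  have h6 := (sum_eq_zero_iff_of_nonneg fun D hD => sub_nonneg.2 (cut_ge hS hC hD hJ hb)).1 h5 D hD
  exact sub_eq_zero.1 h6

theorem conn_shift {c i : ℤ} {lam' : V → ℤ} (h : ∀ v, lam' v = lam v + c) (x y : V) :
    Conn s t A lam' (i + c) x y ↔ Conn s t A lam i x y := by
  have h1 : Step s t A lam' (i + c) = Step s t A lam i := by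
    funext a b
    unfold Step
    rw [h, h, add_le_add_iff_right, add_le_add_iff_right]
  unfold Conn
  rw [h1]

theorem cmp_shift {c i : ℤ} {lam' : V → ℤ} (h : ∀ v, lam' v = lam v + c) (u : V) :
    cmp s t A U lam' (i + c) u = cmp s t A U lam i u := by
  ext x
  rw [mem_cmp, mem_cmp, conn_shift h]

/-- Moving the root along a shortest join. -/
theorem transfer {b : V} {w2 : E → ℤ} {lam2 : V → ℤ} (hS : Sys s t A U w2 col) (hb : b ∈ U)
    (hr : r ∈ U) (hC : Concl s t A U w2 b lam2) {R : Finset E} (hR : R ⊆ A)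
    (hbd : bd s t R = pt b + pt r) (hRw : wt w2 R = lam2 r - lam2 b)
    (hw : ∀ e ∈ A, w e = if e ∈ R then -w2 e else w2 e) {c : ℤ}
    (hlam : ∀ v, lam v = lam2 v + c) : Concl s t A U w r lam := by
  refine ⟨?_, ?_⟩
  · intro e he
    rw [hlam, hlam]
    rcases hC.1 e he with h | h
    · left; linarith
    · right; linarith
  · intro i u hu hui
    have hi : i = (i - c) + c := by ring
    have hD : cmp s t A U lam i u = cmp s t A U lam2 (i - c) u := by
      rw [hi, cmp_shift hlam]
      congr 1
      ring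
    have hui2 : lam2 u ≤ i - c := by
      rw [hlam] at hui
      linarith
    rw [hD]
    have hmem := cmp_mem_comps (s := s) (t := t) (A := A) hu hui2
    obtain ⟨h1, h2⟩ := hC.2 (i - c) u hu hui2
    have ht := cut_tight hS hb hC hmem hR hr hbd hRw
    have hpar := cut_parity hbd (cmp s t A U lam2 (i - c) u)
    set D := cmp s t A U lam2 (i - c) u with hDdef
    have hunit : ∀ e ∈ cut s t D R, w2 e = 1 ∨ w2 e = -1 := fun e he =>
      hS.unit e (hR (mem_cut.1 he).1)
    -- sign of an edge
    have hsign : ∀ e ∈ A, w e = -1 ↔ (e ∈ R ∧ w2 e = 1) ∨ (e ∉ R ∧ w2 e = -1) := by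
      intro e he
      rw [hw e he]
      rcases hS.unit e he with h | h
      · by_cases heR : e ∈ R
        · simp [heR, h]
        · simp [heR, h]
      · by_cases heR : e ∈ R
        · simp [heR, h]
        · simp [heR, h]
    have hsign1 : ∀ e ∈ A, w e ≠ -1 → w e = 1 := by
      intro e he h
      rw [hw e he] at h ⊢
      rcases hS.unit e he with h3 | h3
      · by_cases heR : e ∈ R
        · rw [if_pos heR, h3] at h; exact absurd rfl h
        · rw [if_neg heR, h3]
      · by_cases heR : e ∈ R
        · rw [if_pos heR, h3]; rfl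
        · rw [if_neg heR, h3] at h; exact absurd rfl h
    by_cases hbD : b ∈ D
    · -- all crossing edges are positive for `w2`
      have hpos := h1 hbD
      have hcard : wt w2 (cut s t D R) = (cut s t D R).card := by
        unfold wt
        rw [sum_congr rfl (g := fun _ => (1 : ℤ)), sum_const, nsmul_eq_mul, mul_one]
        intro e he
        exact hpos e (hR (mem_cut.1 he).1) (mem_cut.1 he).2
      rw [hcard, if_pos hbD] at ht
      refine ⟨fun hrD e he hcr => ?_, fun hrD => ?_⟩
      · rw [if_pos hrD, sub_self] at ht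
        have h3 : cut s t D R = ∅ := card_eq_zero.1 (by exact_mod_cast ht)
        apply hsign1 e he
        rw [ne_eq, hsign e he]
        rintro (⟨h4, _⟩ | ⟨_, h4⟩)
        · have : e ∈ cut s t D R := mem_cut.2 ⟨h4, hcr⟩
          rw [h3] at this
          exact notMem_empty e this
        · rw [hpos e he hcr] at h4
          norm_num at h4
      · rw [if_neg hrD, sub_zero] at ht
        have h3 : (cut s t D R).card = 1 := by exact_mod_cast ht
        obtain ⟨f, hf⟩ := card_eq_one.1 h3
        have hfm : f ∈ cut s t D R := by rw [hf]; exact mem_singleton_self f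
        have hfA := hR (mem_cut.1 hfm).1
        refine ⟨f, hfA, (mem_cut.1 hfm).2, ?_, fun e he hcr hwe => ?_⟩
        · rw [hsign f hfA]
          exact Or.inl ⟨(mem_cut.1 hfm).1, hpos f hfA (mem_cut.1 hfm).2⟩
        · rw [hsign e he] at hwe
          rcases hwe with ⟨h4, _⟩ | ⟨_, h4⟩
          · have : e ∈ cut s t D R := mem_cut.2 ⟨h4, hcr⟩
            rw [hf, mem_singleton] at this
            exact this
          · rw [hpos e he hcr] at h4
            norm_num at h4
    · obtain ⟨f, hfA, hf1, hf2, hf3⟩ := h2 hbD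
      obtain ⟨h4, h5⟩ := wt_one_neg hunit fun e he hw =>
        hf3 e (hR (mem_cut.1 he).1) (mem_cut.1 he).2 hw
      rw [if_neg hbD] at ht hpar
      refine ⟨fun hrD e he hcr => ?_, fun hrD => ?_⟩
      · rw [if_pos hrD] at ht hpar
        rw [zero_add] at hpar
        have h6 := odd_card hpar
        have hfc : f ∈ cut s t D R := by
          by_contra hfc
          have := h5 hfc
          omega
        have h7 : (cut s t D R).card = 1 := by omega
        obtain ⟨g, hg⟩ := card_eq_one.1 h7
        have hgf : f = g := by rw [hg, mem_singleton] at hfc; exact hfc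
        apply hsign1 e he
        rw [ne_eq, hsign e he]
        rintro (⟨h8, h9⟩ | ⟨h8, h9⟩)
        · have : e ∈ cut s t D R := mem_cut.2 ⟨h8, hcr⟩
          rw [hg, mem_singleton, ← hgf] at this
          rw [this, hf2] at h9
          norm_num at h9
        · have := hf3 e he hcr h9
          rw [this] at h8
          exact h8 (mem_cut.1 hfc).1
      · rw [if_neg hrD] at ht hpar
        rw [add_zero] at hpar
        rw [sub_zero] at ht
        rcases even_card hpar with h6 | h6
        · rw [card_eq_zero] at h6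
          have hfR : f ∉ R := by
            intro hfR
            have : f ∈ cut s t D R := mem_cut.2 ⟨hfR, hf1⟩
            rw [h6] at this
            exact notMem_empty f this
          refine ⟨f, hfA, hf1, (hsign f hfA).2 (Or.inr ⟨hfR, hf2⟩), fun e he hcr hwe => ?_⟩
          rcases (hsign e he).1 hwe with ⟨h8, _⟩ | ⟨_, h9⟩
          · exfalso
            have : e ∈ cut s t D R := mem_cut.2 ⟨h8, hcr⟩
            rw [h6] at this
            exact notMem_empty e this
          · exact hf3 e he hcr h9
        · have hfc : f ∈ cut s t D R := by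
            by_contra hfc
            have := h5 hfc
            omega
          have h7 : (cut s t D R).card = 2 := by omega
          have h8 : ((cut s t D R).erase f).card = 1 := by
            rw [card_erase_of_mem hfc, h7]
          obtain ⟨g, hg⟩ := card_eq_one.1 h8
          have hgm : g ∈ (cut s t D R).erase f := by rw [hg]; exact mem_singleton_self g
          rw [mem_erase] at hgm
          have hgA := hR (mem_cut.1 hgm.2).1
          have hgw : w2 g = 1 := by
            rcases hS.unit g hgA with h | h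
            · exact h
            · exact absurd (hf3 g hgA (mem_cut.1 hgm.2).2 h) hgm.1
          refine ⟨g, hgA, (mem_cut.1 hgm.2).2,
            (hsign g hgA).2 (Or.inl ⟨(mem_cut.1 hgm.2).1, hgw⟩), fun e he hcr hwe => ?_⟩
          rcases (hsign e he).1 hwe with ⟨h9, h10⟩ | ⟨h9, h10⟩
          · have h11 : e ∈ (cut s t D R).erase f := by
              rw [mem_erase]
              refine ⟨?_, mem_cut.2 ⟨h9, hcr⟩⟩
              rintro rfl
              rw [hf2] at h10
              norm_num at h10
            rw [hg, mem_singleton] at h11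
            exact h11
          · exfalso
            have := hf3 e he hcr h10
            rw [this] at h9
            exact h9 (mem_cut.1 hfc).1

/-- **Sebő's theorem.** -/
theorem sebo (hS : Sys s t A U w col) (hr : r ∈ U) (hd : IsDist s t A U w r lam) :
    Concl s t A U w r lam := by
  suffices h : ∀ (n : ℕ) (s t : E → V) (A : Finset E) (U : Finset V) (w : E → ℤ) (col : V → Bool)
      (r : V) (lam : V → ℤ), U.card = n → Sys s t A U w col → r ∈ U →
      IsDist s t A U w r lam → Concl s t A U w r lam from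
    h _ s t A U w col r lam rfl hS hr hd
  clear hS hr hd
  intro n
  induction n using Nat.strong_induction_on with
  | _ n ih =>
    intro s t A U w col r lam hn hS hr hd
    obtain ⟨b, hb, hmin⟩ := exists_min_image U lam ⟨r, hr⟩
    obtain ⟨R, hR, hRb, hRw⟩ := (hd b hb).1
    set w2 : E → ℤ := fun e => if e ∈ R then -w e else w e with hw2
    have hwt : ∀ C ⊆ A, wt w2 C = wt w (symmDiff C R) - wt w R := by
      intro C _
      rw [wt_symmDiff]
      have h1 : wt w C = wt w (C ∩ R) + wt w (C \ (C ∩ R)) := by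
        rw [wt_sdiff _ inter_subset_left]; ring
      have h2 : wt w2 C = wt w2 (C ∩ R) + wt w2 (C \ (C ∩ R)) := by
        rw [wt_sdiff _ inter_subset_left]; ring
      have h3 : wt w2 (C ∩ R) = -wt w (C ∩ R) := by
        unfold wt
        rw [← sum_neg_distrib]
        refine sum_congr rfl fun e he => ?_
        rw [hw2]
        simp only
        rw [if_pos (mem_inter.1 he).2]
      have h4 : wt w2 (C \ (C ∩ R)) = wt w (C \ (C ∩ R)) := by
        unfold wt
        refine sum_congr rfl fun e he => ?_
        rw [mem_sdiff, mem_inter] at he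
        rw [hw2]
        simp only
        rw [if_neg fun h => he.2 ⟨he.1, h⟩]
      rw [h2, h3, h4, h1]
      ring
    have hsub : ∀ C ⊆ A, symmDiff C R ⊆ A := by
      intro C hC e he
      rw [mem_symmDiff] at he
      rcases he with ⟨h, _⟩ | ⟨h, _⟩
      · exact hC h
      · exact hR h
    have hS2 : Sys s t A U w2 col := by
      refine ⟨hS.ends, hS.bip, fun e he => ?_, fun C hC h => ?_⟩
      · rw [hw2]
        simp only
        rcases hS.unit e he with h | h <;> split_ifs <;> rw [h] <;> simp
      · rw [hwt C hC, hRw]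
        have := (hd b hb).2 (symmDiff C R) (hsub C hC) (by rw [bd_symmDiff, h, zero_add, hRb])
        linarith
    have hd2 : IsDist s t A U w2 b (fun v => lam v - lam b) := by
      intro v hv
      refine ⟨?_, fun J hJ h => ?_⟩
      · obtain ⟨J, hJ, hJb, hJw⟩ := (hd v hv).1
        refine ⟨symmDiff J R, hsub J hJ, ?_, ?_⟩
        · rw [bd_symmDiff, hJb, hRb]
          calc pt r + pt v + (pt r + pt b) = (pt r + pt r) + (pt b + pt v) := by abel
            _ = pt b + pt v := by rw [fun_two, zero_add]
        · rw [hwt _ (hsub J hJ), symmDiff_symmDiff_cancel_right, hJw, hRw]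
      · rw [hwt J hJ, hRw]
        have := (hd v hv).2 (symmDiff J R) (hsub J hJ) (by
          rw [bd_symmDiff, h, hRb]
          calc pt b + pt v + (pt r + pt b) = (pt b + pt b) + (pt r + pt v) := by abel
            _ = pt r + pt v := by rw [fun_two, zero_add])
        linarith
    have hlr : lam r = 0 := by
      obtain ⟨J, hJ, hJb, hJw⟩ := (hd r hr).1
      have h1 := (hd r hr).2 ∅ (empty_subset _) (by rw [bd_empty, fun_two])
      rw [wt_empty] at h1
      have h2 := hS.cons J hJ (by rw [hJb, fun_two])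
      omega
    have hC2 : Concl s t A U w2 b (fun v => lam v - lam b) := by
      refine concl_contract hS2 hb hd2 (fun v hv => by have := hmin v hv; linarith) ?_
      intro s' t' A' U' col' r' lam' hcard hS' hr' hd'
      exact ih U'.card (by omega) s' t' A' U' w2 col' r' lam' rfl hS' hr' hd'
    refine transfer hS2 hb hr hC2 hR (by rw [hRb, add_comm]) ?_ ?_ (c := lam b) ?_
    · have h1 := hwt R hR
      rw [symmDiff_self] at h1
      have h2 : wt w (⊥ : Finset E) = 0 := wt_empty w
      rw [h1, h2, hRw, hlr]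
      simp
    · intro e _
      rw [hw2]
      simp only
      split_ifs
      · rw [neg_neg]
      · rfl
    · intro v
      simp

end Pool.Agent.Sebo
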