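import Mathlib

/-!
# Joins in finite multigraphs

A multigraph is given by the ends `s t : E → V`; edge sets are finsets of edges.
-/

set_option autoImplicit false
set_option linter.unusedSectionVars false
set_option linter.unusedSimpArgs false

namespace Pool.Agent.Sebo

open Finset

variable {V E : Type*} [DecidableEq V] [DecidableEq E]

/-- The characteristic vector of a vertex. -/
def pt (v : V) : V → ZMod 2 := Pi.single v 1

/-- The vector of the degrees modulo 2 of an edge set. -/
def bd (s t : E → V) (J : Finset E) : V → ZMod 2 := ∑ e ∈ J, (pt (s e) + pt (t e))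

/-- The weight of an edge set. -/
def wt (w : E → ℤ) (J : Finset E) : ℤ := ∑ e ∈ J, w e

omit [DecidableEq E] in
theorem two_eq_zero (x : ZMod 2) : x + x = 0 := by
  revert x; decide

theorem fun_two (f : V → ZMod 2) : f + f = 0 := by
  funext v; exact two_eq_zero (f v)

theorem eq_of_add_eq_zero {f g : V → ZMod 2} (h : f + g = 0) : f = g := by
  funext v
  have h1 := congrFun h v
  simp only [Pi.add_apply, Pi.zero_apply] at h1
  revert h1
  generalize f v = a
  generalize g v = b
  revert a b
  decide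

theorem pt_self (v : V) : pt v v = 1 := by simp [pt]

theorem pt_ne {u v : V} (h : v ≠ u) : pt u v = 0 := by simp [pt, Pi.single_apply, h]

theorem pt_apply (u v : V) : pt u v = if v = u then 1 else 0 := by
  simp [pt, Pi.single_apply]

theorem bd_empty (s t : E → V) : bd s t ∅ = 0 := by simp [bd]

theorem wt_empty (w : E → ℤ) : wt w ∅ = 0 := by simp [wt]

theorem bd_singleton (s t : E → V) (e : E) : bd s t {e} = pt (s e) + pt (t e) := by simp [bd]

theorem wt_singleton (w : E → ℤ) (e : E) : wt w {e} = w e := by simp [wt]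

theorem bd_union (s t : E → V) {J K : Finset E} (h : Disjoint J K) :
    bd s t (J ∪ K) = bd s t J + bd s t K := by
  unfold bd
  rw [sum_union h]

theorem wt_union (w : E → ℤ) {J K : Finset E} (h : Disjoint J K) :
    wt w (J ∪ K) = wt w J + wt w K := by
  unfold wt
  rw [sum_union h]

theorem bd_sdiff (s t : E → V) {J K : Finset E} (h : K ⊆ J) :
    bd s t (J \ K) = bd s t J + bd s t K := by
  have h1 : bd s t J = bd s t (J \ K) + bd s t K := by
    rw [← bd_union s t sdiff_disjoint, sdiff_union_of_subset h]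
  rw [h1, add_assoc, fun_two, add_zero]

theorem wt_sdiff (w : E → ℤ) {J K : Finset E} (h : K ⊆ J) :
    wt w (J \ K) = wt w J - wt w K := by
  have h1 : wt w J = wt w (J \ K) + wt w K := by
    rw [← wt_union w sdiff_disjoint, sdiff_union_of_subset h]
  rw [h1, add_sub_cancel_right]

theorem bd_symmDiff (s t : E → V) (J K : Finset E) :
    bd s t (symmDiff J K) = bd s t J + bd s t K := by
  have h1 : symmDiff J K = (J \ (J ∩ K)) ∪ (K \ (J ∩ K)) := by
    ext e
    simp only [mem_symmDiff, mem_union, mem_sdiff, mem_inter]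
    tauto
  have h2 : Disjoint (J \ (J ∩ K)) (K \ (J ∩ K)) := by
    rw [disjoint_left]
    intro e he he'
    simp only [mem_sdiff, mem_inter] at he he'
    tauto
  rw [h1, bd_union s t h2, bd_sdiff s t inter_subset_left, bd_sdiff s t inter_subset_right]
  rw [add_add_add_comm, fun_two, add_zero]

theorem wt_symmDiff (w : E → ℤ) (J K : Finset E) :
    wt w (symmDiff J K) = wt w J + wt w K - 2 * wt w (J ∩ K) := by
  have h1 : symmDiff J K = (J \ (J ∩ K)) ∪ (K \ (J ∩ K)) := by
    ext e
    simp only [mem_symmDiff, mem_union, mem_sdiff, mem_inter]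
    tauto
  have h2 : Disjoint (J \ (J ∩ K)) (K \ (J ∩ K)) := by
    rw [disjoint_left]
    intro e he he'
    simp only [mem_sdiff, mem_inter] at he he'
    tauto
  rw [h1, wt_union w h2, wt_sdiff w inter_subset_left, wt_sdiff w inter_subset_right]
  ring

theorem bd_apply (s t : E → V) (J : Finset E) (v : V) :
    bd s t J v = ∑ e ∈ J, (pt (s e) v + pt (t e) v) := by
  unfold bd
  rw [Finset.sum_apply]
  rfl

/-- The edge `e` crosses the boundary of `D`. -/
def Cr (s t : E → V) (D : Finset V) (e : E) : Prop :=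
  (s e ∈ D ∧ t e ∉ D) ∨ (s e ∉ D ∧ t e ∈ D)

instance (s t : E → V) (D : Finset V) : DecidablePred (Cr s t D) := fun e => by
  unfold Cr; infer_instance

/-- The edges of `J` which cross the boundary of `D`. -/
def cut (s t : E → V) (D : Finset V) (J : Finset E) : Finset E := J.filter (Cr s t D)

theorem mem_cut {s t : E → V} {D : Finset V} {J : Finset E} {e : E} :
    e ∈ cut s t D J ↔ e ∈ J ∧ Cr s t D e := mem_filter

/-- Handshaking. -/
theorem handshake (s t : E → V) (J : Finset E) (D : Finset V) :
    ∑ v ∈ D, bd s t J v = ((cut s t D J).card : ZMod 2) := by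
  have h0 : ∀ x : V, ∑ v ∈ D, pt x v = if x ∈ D then (1 : ZMod 2) else 0 := by
    intro x
    simp only [pt_apply]
    rw [Finset.sum_ite_eq' D x (fun _ => (1 : ZMod 2))]
  have h1 : ∑ v ∈ D, bd s t J v = ∑ e ∈ J, (if Cr s t D e then (1 : ZMod 2) else 0) := by
    simp only [bd_apply]
    rw [sum_comm]
    refine sum_congr rfl fun e _ => ?_
    rw [sum_add_distrib, h0, h0]
    unfold Cr
    by_cases h1 : s e ∈ D <;> by_cases h2 : t e ∈ D <;> simp [h1, h2, two_eq_zero]
  rw [h1, cut, ← sum_filter, sum_const, nsmul_eq_mul, mul_one]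

/-- `a` and `b` are joined by an edge of `J`. -/
def Adj (s t : E → V) (J : Finset E) (a b : V) : Prop :=
  ∃ e ∈ J, (s e = a ∧ t e = b) ∨ (s e = b ∧ t e = a)

theorem reach_join {s t : E → V} {J : Finset E} {u v : V}
    (h : Relation.ReflTransGen (Adj s t J) u v) : ∃ K ⊆ J, bd s t K = pt u + pt v := by
  induction h with
  | refl => exact ⟨∅, empty_subset _, by rw [bd_empty, fun_two]⟩
  | @tail b c _ hbc ih =>
    obtain ⟨K, hK, hb⟩ := ih
    obtain ⟨e, he, hbc⟩ := hbc
    refine ⟨symmDiff K {e}, ?_, ?_⟩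
    · intro x hx
      rw [mem_symmDiff] at hx
      rcases hx with ⟨hx, _⟩ | ⟨hx, _⟩
      · exact hK hx
      · rw [mem_singleton] at hx
        rw [hx]
        exact he
    · rw [bd_symmDiff, hb, bd_singleton]
      have h2 : pt (s e) + pt (t e) = pt b + pt c := by
        rcases hbc with ⟨h1, h2⟩ | ⟨h1, h2⟩
        · rw [h1, h2]
        · rw [h1, h2, add_comm]
      rw [h2]
      calc pt u + pt b + (pt b + pt c) = pt u + (pt b + pt b) + pt c := by abel
        _ = pt u + pt c := by rw [fun_two, add_zero]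

/-- An odd vertex is connected to another odd vertex. -/
theorem odd_partner {s t : E → V} {J : Finset E} {u : V} (h : bd s t J u = 1) :
    ∃ v, v ≠ u ∧ bd s t J v = 1 ∧ Relation.ReflTransGen (Adj s t J) u v := by
  classical
  set D : Finset V := (J.image s ∪ J.image t ∪ {u}).filter
    (fun v => Relation.ReflTransGen (Adj s t J) u v) with hD
  have huD : u ∈ D := by
    rw [hD, mem_filter]
    exact ⟨mem_union_right _ (mem_singleton_self u), Relation.ReflTransGen.refl⟩
  have hcut : cut s t D J = ∅ := by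
    rw [eq_empty_iff_forall_notMem]
    intro e he
    rw [mem_cut] at he
    obtain ⟨heJ, hcr⟩ := he
    have hs : s e ∈ J.image s ∪ J.image t ∪ {u} :=
      mem_union_left _ (mem_union_left _ (mem_image_of_mem s heJ))
    have ht : t e ∈ J.image s ∪ J.image t ∪ {u} :=
      mem_union_left _ (mem_union_right _ (mem_image_of_mem t heJ))
    rcases hcr with ⟨h1, h2⟩ | ⟨h1, h2⟩
    · apply h2
      rw [hD, mem_filter] at h1 ⊢
      exact ⟨ht, h1.2.tail ⟨e, heJ, Or.inl ⟨rfl, rfl⟩⟩⟩
    · apply h1
      rw [hD, mem_filter] at h2 ⊢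
      exact ⟨hs, h2.2.tail ⟨e, heJ, Or.inr ⟨rfl, rfl⟩⟩⟩
  have hsum := handshake s t J D
  rw [hcut, card_empty, Nat.cast_zero, ← add_sum_erase D _ huD, h] at hsum
  have hne : ∑ v ∈ D.erase u, bd s t J v ≠ 0 := by
    intro h0
    rw [h0] at hsum
    revert hsum
    decide
  obtain ⟨v, hv, hvne⟩ := exists_ne_zero_of_sum_ne_zero hne
  rw [mem_erase] at hv
  refine ⟨v, hv.1, ?_, ?_⟩
  · revert hvne
    generalize bd s t J v = x
    revert x
    decide
  · rw [hD, mem_filter] at hv
    exact hv.2.2

/-- Extraction of a path between two odd vertices. -/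
theorem extract {s t : E → V} {J : Finset E} {u : V} (h : bd s t J u = 1) :
    ∃ K ⊆ J, ∃ v, v ≠ u ∧ bd s t J v = 1 ∧ bd s t K = pt u + pt v := by
  obtain ⟨v, hv, h1, h2⟩ := odd_partner h
  obtain ⟨K, hK, hb⟩ := reach_join h2
  exact ⟨K, hK, v, hv, h1, hb⟩

theorem pt_ne_pt {u v : V} (h : u ≠ v) : pt u + pt v ≠ 0 := by
  intro h0
  have := congrFun h0 u
  rw [Pi.add_apply, pt_self, pt_ne h, add_zero, Pi.zero_apply] at this
  revert this
  decide

/-- The parity of a weight. -/
theorem wt_parity {w : E → ℤ} {J : Finset E} (hw : ∀ e ∈ J, w e = 1 ∨ w e = -1) :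
    ((wt w J : ℤ) : ZMod 2) = (J.card : ZMod 2) := by
  unfold wt
  rw [Int.cast_sum, card_eq_sum_ones, Nat.cast_sum]
  refine sum_congr rfl fun e he => ?_
  rcases hw e he with h | h <;> rw [h] <;> decide

/-- In a bipartite graph the boundary determines the parity. -/
theorem bip_parity {s t : E → V} {J : Finset E} {U : Finset V} {col : V → Bool}
    (hU : ∀ e ∈ J, s e ∈ U ∧ t e ∈ U) (hc : ∀ e ∈ J, col (s e) ≠ col (t e)) :
    (J.card : ZMod 2) = ∑ v ∈ U.filter (fun v => col v = true), bd s t J v := by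
  rw [handshake]
  congr 2
  symm
  rw [cut, filter_eq_self]
  intro e he
  have h1 := hU e he
  have h2 := hc e he
  unfold Cr
  rw [mem_filter, mem_filter]
  cases h3 : col (s e) <;> cases h4 : col (t e) <;> simp_all

end Pool.Agent.Sebo
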