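import Pool.Agent.Sebo.Basic

/-!
# Contraction of the star of the root
-/

set_option autoImplicit false
set_option linter.unusedSectionVars false
set_option linter.unusedSimpArgs false

namespace Pool.Agent.Sebo

open Finset

variable {V E : Type*} [DecidableEq V] [DecidableEq E]

/-- A bipartite graph with conservative weights `±1`. -/
structure Sys (s t : E → V) (A : Finset E) (U : Finset V) (w : E → ℤ) (col : V → Bool) :
    Prop where
  ends : ∀ e ∈ A, s e ∈ U ∧ t e ∈ U
  bip : ∀ e ∈ A, col (s e) ≠ col (t e)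
  unit : ∀ e ∈ A, w e = 1 ∨ w e = -1
  cons : ∀ J ⊆ A, bd s t J = 0 → 0 ≤ wt w J

/-- `lam` is the distance from `r`. -/
def IsDist (s t : E → V) (A : Finset E) (U : Finset V) (w : E → ℤ) (r : V) (lam : V → ℤ) : Prop :=
  ∀ v ∈ U, (∃ J ⊆ A, bd s t J = pt r + pt v ∧ wt w J = lam v) ∧
    ∀ J ⊆ A, bd s t J = pt r + pt v → lam v ≤ wt w J

/-- A step between vertices of level at most `i`. -/
def Step (s t : E → V) (A : Finset E) (lam : V → ℤ) (i : ℤ) (a b : V) : Prop :=
  lam a ≤ i ∧ lam b ≤ i ∧ ∃ e ∈ A, (s e = a ∧ t e = b) ∨ (s e = b ∧ t e = a)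

/-- Connection through vertices of level at most `i`. -/
def Conn (s t : E → V) (A : Finset E) (lam : V → ℤ) (i : ℤ) : V → V → Prop :=
  Relation.ReflTransGen (Step s t A lam i)

open scoped Classical in
/-- The component of `u`. -/
noncomputable def cmp (s t : E → V) (A : Finset E) (U : Finset V) (lam : V → ℤ) (i : ℤ) (u : V) :
    Finset V := U.filter (Conn s t A lam i u)

/-- The conclusion of Sebő's theorem. -/
def Concl (s t : E → V) (A : Finset E) (U : Finset V) (w : E → ℤ) (r : V) (lam : V → ℤ) : Prop :=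
  (∀ e ∈ A, lam (s e) = lam (t e) + 1 ∨ lam (t e) = lam (s e) + 1) ∧
  ∀ i, ∀ u ∈ U, lam u ≤ i →
    (r ∈ cmp s t A U lam i u → ∀ e ∈ A, Cr s t (cmp s t A U lam i u) e → w e = 1) ∧
    (r ∉ cmp s t A U lam i u → ∃ f ∈ A, Cr s t (cmp s t A U lam i u) f ∧ w f = -1 ∧
      ∀ e ∈ A, Cr s t (cmp s t A U lam i u) e → w e = -1 → e = f)

theorem mem_cmp {s t : E → V} {A : Finset E} {U : Finset V} {lam : V → ℤ} {i : ℤ} {u v : V} :
    v ∈ cmp s t A U lam i u ↔ v ∈ U ∧ Conn s t A lam i u v := by
  classical
  unfold cmp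
  rw [mem_filter]

theorem Step.symm {s t : E → V} {A : Finset E} {lam : V → ℤ} {i : ℤ} {a b : V}
    (h : Step s t A lam i a b) : Step s t A lam i b a := by
  obtain ⟨h1, h2, e, he, h3⟩ := h
  exact ⟨h2, h1, e, he, h3.symm⟩

theorem Conn.symm {s t : E → V} {A : Finset E} {lam : V → ℤ} {i : ℤ} {a b : V}
    (h : Conn s t A lam i a b) : Conn s t A lam i b a := by
  induction h with
  | refl => exact Relation.ReflTransGen.refl
  | tail _ hbc ih => exact Relation.ReflTransGen.head hbc.symm ih

/-- Parity of the weight of a join. -/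
theorem join_parity {s t : E → V} {A : Finset E} {U : Finset V} {w : E → ℤ} {col : V → Bool}
    (hS : Sys s t A U w col) {a b : V} (ha : a ∈ U) (hb : b ∈ U) {J : Finset E} (hJ : J ⊆ A)
    (h : bd s t J = pt a + pt b) :
    ((wt w J : ℤ) : ZMod 2) = (if col a = true then 1 else 0) + (if col b = true then 1 else 0) := by
  rw [wt_parity fun e he => hS.unit e (hJ he),
    bip_parity (U := U) (col := col) (fun e he => hS.ends e (hJ he)) fun e he => hS.bip e (hJ he),
    h]
  simp only [Pi.add_apply, sum_add_distrib, pt_apply]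
  rw [sum_ite_eq' _ a (fun _ => (1 : ZMod 2)), sum_ite_eq' _ b (fun _ => (1 : ZMod 2))]
  simp only [mem_filter, ha, hb, true_and]

section Contract

/-- The neighbours of `b`. -/
def nb (s t : E → V) (A : Finset E) (U : Finset V) (b : V) : Finset V :=
  U.filter (fun v => ∃ e ∈ A, (s e = b ∧ t e = v) ∨ (s e = v ∧ t e = b))

/-- The contraction. -/
def pj (N : Finset V) (b v : V) : V := if v ∈ N then b else v

/-- The pushforward of vectors. -/
def push (N : Finset V) (b : V) (f : V → ZMod 2) : V → ZMod 2 :=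
  fun v => if v = b then f b + ∑ c ∈ N, f c else if v ∈ N then 0 else f v

theorem push_add (N : Finset V) (b : V) (f g : V → ZMod 2) :
    push N b (f + g) = push N b f + push N b g := by
  funext v
  unfold push
  simp only [Pi.add_apply, sum_add_distrib]
  split_ifs <;> abel

theorem push_zero (N : Finset V) (b : V) : push N b 0 = 0 := by
  funext v
  unfold push
  simp

theorem push_pt {N : Finset V} {b : V} (hb : b ∉ N) (x : V) : push N b (pt x) = pt (pj N b x) := by
  funext v
  unfold push pj
  simp only [pt_apply]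
  rw [sum_ite_eq' N x (fun _ => (1 : ZMod 2))]
  by_cases hx : x ∈ N
  · have hxb : b ≠ x := fun h => hb (h ▸ hx)
    simp only [hx, if_true, if_neg hxb, zero_add]
    by_cases hv : v = b
    · rw [if_pos hv, if_pos hv]
    · rw [if_neg hv, if_neg hv]
      by_cases hvN : v ∈ N
      · rw [if_pos hvN]
      · rw [if_neg hvN, if_neg (fun h : v = x => hvN (h ▸ hx))]
  · simp only [hx, if_false, add_zero]
    by_cases hv : v = b
    · rw [if_pos hv, hv]
    · rw [if_neg hv]
      by_cases hvN : v ∈ N
      · rw [if_pos hvN, if_neg (fun h : v = x => hx (h ▸ hvN))]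
      · rw [if_neg hvN]

theorem bd_push {N : Finset V} {b : V} (hb : b ∉ N) (s t : E → V) (J : Finset E) :
    bd (fun e => pj N b (s e)) (fun e => pj N b (t e)) J = push N b (bd s t J) := by
  induction J using Finset.induction_on with
  | empty => rw [bd_empty, bd_empty, push_zero]
  | insert e J he ih =>
    have h1 : insert e J = {e} ∪ J := by rw [insert_eq]
    have h2 : Disjoint ({e} : Finset E) J := disjoint_singleton_left.2 he
    rw [h1, bd_union _ _ h2, bd_union _ _ h2, bd_singleton, bd_singleton, push_add, push_add, ih,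
      push_pt hb, push_pt hb]

variable {s t : E → V} {A : Finset E} {U : Finset V} {w : E → ℤ} {col : V → Bool} {b : V}
  {lam : V → ℤ}

theorem mem_nb {v : V} : v ∈ nb s t A U b ↔
    v ∈ U ∧ ∃ e ∈ A, (s e = b ∧ t e = v) ∨ (s e = v ∧ t e = b) := by
  unfold nb
  rw [mem_filter]

theorem root_notMem_nb (hS : Sys s t A U w col) : b ∉ nb s t A U b := by
  intro h
  obtain ⟨_, e, he, h1⟩ := mem_nb.1 h
  apply hS.bip e he
  rcases h1 with ⟨h1, h2⟩ | ⟨h1, h2⟩ <;> rw [h1, h2]

theorem lam_root (hb : b ∈ U) (hd : IsDist s t A U w b lam) (h0 : ∀ v ∈ U, 0 ≤ lam v) :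
    lam b = 0 := by
  have h1 := (hd b hb).2 ∅ (empty_subset _) (by rw [bd_empty, fun_two])
  rw [wt_empty] at h1
  exact le_antisymm h1 (h0 b hb)

theorem star_pos (hS : Sys s t A U w col) (hd : IsDist s t A U w b lam)
    (h0 : ∀ v ∈ U, 0 ≤ lam v) {e : E} (he : e ∈ A) (h : s e = b ∨ t e = b) : w e = 1 := by
  rcases hS.unit e he with h1 | h1
  · exact h1
  · exfalso
    rcases h with h | h
    · have h2 := (hd (t e) (hS.ends e he).2).2 {e} (singleton_subset_iff.2 he)
        (by rw [bd_singleton, h])
      rw [wt_singleton, h1] at h2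
      have := h0 _ (hS.ends e he).2
      omega
    · have h2 := (hd (s e) (hS.ends e he).1).2 {e} (singleton_subset_iff.2 he)
        (by rw [bd_singleton, h, add_comm])
      rw [wt_singleton, h1] at h2
      have := h0 _ (hS.ends e he).1
      omega

theorem lam_nb (hS : Sys s t A U w col) (hb : b ∈ U) (hd : IsDist s t A U w b lam)
    (h0 : ∀ v ∈ U, 0 ≤ lam v) {v : V} (hv : v ∈ nb s t A U b) : lam v = 1 := by
  obtain ⟨hvU, e, he, h1⟩ := mem_nb.1 hv
  have hw : w e = 1 := star_pos hS hd h0 he (h1.imp (fun h => h.1) fun h => h.2)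
  have hbd : bd s t {e} = pt b + pt v := by
    rw [bd_singleton]
    rcases h1 with ⟨h1, h2⟩ | ⟨h1, h2⟩
    · rw [h1, h2]
    · rw [h1, h2, add_comm]
  have hle := (hd v hvU).2 {e} (singleton_subset_iff.2 he) hbd
  rw [wt_singleton, hw] at hle
  have hge := h0 v hvU
  obtain ⟨J, hJ, hJb, hJw⟩ := (hd v hvU).1
  have hp1 := join_parity hS hb hvU hJ hJb
  have hp2 := join_parity hS hb hvU (singleton_subset_iff.2 he) hbd
  rw [hJw] at hp1
  rw [wt_singleton, hw] at hp2
  rw [← hp2] at hp1
  rcases (by omega : lam v = 0 ∨ lam v = 1) with h | h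
  · exfalso
    rw [h] at hp1
    revert hp1
    decide
  · exact h

/-- The edges which are not incident to the root. -/
def far (s t : E → V) (A : Finset E) (b : V) : Finset E := A.filter (fun e => s e ≠ b ∧ t e ≠ b)

theorem far_subset : far s t A b ⊆ A := filter_subset _ _

theorem bd_far {J : Finset E} (hJ : J ⊆ far s t A b) : bd s t J b = 0 := by
  rw [bd_apply]
  refine sum_eq_zero fun e he => ?_
  have h1 := (mem_filter.1 (hJ he)).2
  rw [pt_ne h1.1.symm, pt_ne h1.2.symm, add_zero]

theorem pair_nonneg (hS : Sys s t A U w col) (hb : b ∈ U) (hd : IsDist s t A U w b lam)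
    (h0 : ∀ v ∈ U, 0 ≤ lam v) {c v : V} (hc : c ∈ nb s t A U b) (hv : v ∈ U) {K : Finset E}
    (hK : K ⊆ far s t A b) (hbd : bd s t K = pt c + pt v) : lam v ≤ wt w K + 1 := by
  obtain ⟨hcU, e, he, h1⟩ := mem_nb.1 hc
  have hw : w e = 1 := star_pos hS hd h0 he (h1.imp (fun h => h.1) fun h => h.2)
  have heK : e ∉ K := by
    intro h
    have h2 := (mem_filter.1 (hK h)).2
    rcases h1 with h1 | h1
    · exact h2.1 h1.1
    · exact h2.2 h1.2
  have hdis : Disjoint ({e} : Finset E) K := disjoint_singleton_left.2 heK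
  have hbe : bd s t {e} = pt b + pt c := by
    rw [bd_singleton]
    rcases h1 with ⟨h1, h2⟩ | ⟨h1, h2⟩
    · rw [h1, h2]
    · rw [h1, h2, add_comm]
  have h3 := (hd v hv).2 ({e} ∪ K)
    (union_subset (singleton_subset_iff.2 he) (hK.trans far_subset)) (by
      rw [bd_union _ _ hdis, hbe, hbd]
      calc pt b + pt c + (pt c + pt v) = pt b + (pt c + pt c) + pt v := by abel
        _ = pt b + pt v := by rw [fun_two, add_zero])
  rw [wt_union _ hdis, wt_singleton, hw] at h3
  linarith

theorem zmod_cases (x : ZMod 2) : x = 0 ∨ x = 1 := by revert x; decide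

theorem contract_cons (hS : Sys s t A U w col) (hb : b ∈ U) (hd : IsDist s t A U w b lam)
    (h0 : ∀ v ∈ U, 0 ≤ lam v) (J : Finset E) (hJ : J ⊆ far s t A b)
    (h : push (nb s t A U b) b (bd s t J) = 0) : 0 ≤ wt w J := by
  have hbN := root_notMem_nb (b := b) hS
  induction J using Finset.strongInduction with
  | H J ih =>
    have hXb := bd_far hJ
    have hX : ∀ v, v ≠ b → v ∉ nb s t A U b → bd s t J v = 0 := by
      intro v hv hvN
      have := congrFun h v
      unfold push at this
      rw [if_neg hv, if_neg hvN] at this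
      exact this
    by_cases hc : ∃ c ∈ nb s t A U b, bd s t J c = 1
    · obtain ⟨c, hcN, hc1⟩ := hc
      obtain ⟨K, hKJ, v, hvc, hv1, hK⟩ := extract hc1
      have hvN : v ∈ nb s t A U b := by
        by_contra hvN
        have hvb : v ≠ b := by
          rintro rfl
          rw [hXb] at hv1
          revert hv1; decide
        rw [hX v hvb hvN] at hv1
        revert hv1; decide
      have h1 := pair_nonneg hS hb hd h0 hcN (mem_nb.1 hvN).1 (hKJ.trans hJ) hK
      rw [lam_nb hS hb hd h0 hvN] at h1
      have hKne : K.Nonempty := by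
        rw [nonempty_iff_ne_empty]
        rintro rfl
        rw [bd_empty] at hK
        exact pt_ne_pt hvc.symm hK.symm
      have h2 := ih (J \ K) (sdiff_ssubset hKJ hKne) (sdiff_subset.trans hJ) (by
        rw [bd_sdiff _ _ hKJ, push_add, h, hK, push_add, push_pt hbN, push_pt hbN]
        unfold pj
        rw [if_pos hcN, if_pos hvN, fun_two, add_zero])
      rw [wt_sdiff _ hKJ] at h2
      linarith
    · push Not at hc
      refine hS.cons J (hJ.trans far_subset) ?_
      funext v
      by_cases hvb : v = b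
      · rw [hvb, hXb]; rfl
      by_cases hvN : v ∈ nb s t A U b
      · rcases zmod_cases (bd s t J v) with h1 | h1
        · exact h1
        · exact absurd h1 (hc v hvN)
      · exact hX v hvb hvN

theorem contract_dist (hS : Sys s t A U w col) (hb : b ∈ U) (hd : IsDist s t A U w b lam)
    (h0 : ∀ v ∈ U, 0 ≤ lam v) {v : V} (hv : v ∈ U) (hvN : v ∉ nb s t A U b) (hvb : v ≠ b)
    (J : Finset E) (hJ : J ⊆ far s t A b)
    (h : push (nb s t A U b) b (bd s t J) = pt b + pt v) : lam v ≤ wt w J + 1 := by
  have hbN := root_notMem_nb (b := b) hS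
  induction J using Finset.strongInduction with
  | H J ih =>
    have hXb := bd_far hJ
    have hX : ∀ x, x ≠ b → x ∉ nb s t A U b → x ≠ v → bd s t J x = 0 := by
      intro x hx hxN hxv
      have := congrFun h x
      unfold push at this
      rw [if_neg hx, if_neg hxN, Pi.add_apply, pt_ne hx, pt_ne hxv, add_zero] at this
      exact this
    have hsum : ∑ c ∈ nb s t A U b, bd s t J c = 1 := by
      have := congrFun h b
      unfold push at this
      rw [if_pos rfl, hXb, zero_add, Pi.add_apply, pt_self, pt_ne hvb.symm, add_zero] at this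
      exact this
    obtain ⟨c, hcN, hc0⟩ := exists_ne_zero_of_sum_ne_zero (by rw [hsum]; decide)
    have hc1 : bd s t J c = 1 := (zmod_cases _).resolve_left hc0
    obtain ⟨K, hKJ, x, hxc, hx1, hK⟩ := extract hc1
    have hKne : K.Nonempty := by
      rw [nonempty_iff_ne_empty]
      rintro rfl
      rw [bd_empty] at hK
      exact pt_ne_pt hxc.symm hK.symm
    have hxb : x ≠ b := by
      rintro rfl
      rw [hXb] at hx1
      revert hx1; decide
    by_cases hxN : x ∈ nb s t A U b
    · have h1 := pair_nonneg hS hb hd h0 hcN (mem_nb.1 hxN).1 (hKJ.trans hJ) hK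
      rw [lam_nb hS hb hd h0 hxN] at h1
      have h2 := ih (J \ K) (sdiff_ssubset hKJ hKne) (sdiff_subset.trans hJ) (by
        rw [bd_sdiff _ _ hKJ, push_add, h, hK, push_add, push_pt hbN, push_pt hbN]
        unfold pj
        rw [if_pos hcN, if_pos hxN, fun_two, add_zero])
      rw [wt_sdiff _ hKJ] at h2
      linarith
    · have hxv : x = v := by
        by_contra hxv
        rw [hX x hxb hxN hxv] at hx1
        revert hx1; decide
      subst hxv
      have h1 := pair_nonneg hS hb hd h0 hcN hv (hKJ.trans hJ) hK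
      have h2 := contract_cons hS hb hd h0 (J \ K) (sdiff_subset.trans hJ) (by
        rw [bd_sdiff _ _ hKJ, push_add, h, hK, push_add, push_pt hbN, push_pt hbN]
        unfold pj
        rw [if_pos hcN, if_neg hvN, fun_two])
      rw [wt_sdiff _ hKJ] at h2
      linarith

end Contract

end Pool.Agent.Sebo
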