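import Pool.Agent.Sebo.Contract

/-!
# Lifting the conclusion from the contracted graph
-/

set_option autoImplicit false
set_option linter.unusedSectionVars false
set_option linter.unusedSimpArgs false

namespace Pool.Agent.Sebo

open Finset

variable {V E : Type*} [DecidableEq V] [DecidableEq E]
  {s t : E → V} {A : Finset E} {U : Finset V} {w : E → ℤ} {col : V → Bool} {b : V}
  {lam : V → ℤ}

/-- The distances in the contracted graph. -/
def lamc (b : V) (lam : V → ℤ) (v : V) : ℤ := if v = b then 0 else lam v - 1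

/-- The colours in the contracted graph. -/
def colc (b : V) (col : V → Bool) (v : V) : Bool := if v = b then !(col b) else col v

theorem pj_mem (hS : Sys s t A U w col) (hb : b ∈ U) {x : V} (hx : x ∈ U) :
    pj (nb s t A U b) b x ∈ U \ nb s t A U b := by
  unfold pj
  rw [mem_sdiff]
  by_cases h : x ∈ nb s t A U b
  · rw [if_pos h]
    exact ⟨hb, root_notMem_nb hS⟩
  · rw [if_neg h]
    exact ⟨hx, h⟩

theorem lamc_pj (hS : Sys s t A U w col) (hb : b ∈ U) (hd : IsDist s t A U w b lam)
    (h0 : ∀ v ∈ U, 0 ≤ lam v) {x : V} (hxb : x ≠ b) :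
    lamc b lam (pj (nb s t A U b) b x) = lam x - 1 := by
  unfold pj lamc
  by_cases h : x ∈ nb s t A U b
  · rw [if_pos h, if_pos rfl, lam_nb hS hb hd h0 h, sub_self]
  · rw [if_neg h, if_neg hxb]

theorem colc_pj (hS : Sys s t A U w col) {x : V} (hxb : x ≠ b) :
    colc b col (pj (nb s t A U b) b x) = col x := by
  unfold pj colc
  by_cases h : x ∈ nb s t A U b
  · rw [if_pos h, if_pos rfl]
    obtain ⟨_, e, he, h1⟩ := mem_nb.1 h
    have h2 := hS.bip e he
    rcases h1 with ⟨h1, h3⟩ | ⟨h1, h3⟩
    · rw [h1, h3] at h2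
      cases h4 : col b <;> cases h5 : col x <;> simp_all
    · rw [h1, h3] at h2
      cases h4 : col b <;> cases h5 : col x <;> simp_all
  · rw [if_neg h, if_neg hxb]

theorem mem_far {e : E} : e ∈ far s t A b ↔ e ∈ A ∧ s e ≠ b ∧ t e ≠ b := mem_filter

theorem sys_contract (hS : Sys s t A U w col) (hb : b ∈ U) (hd : IsDist s t A U w b lam)
    (h0 : ∀ v ∈ U, 0 ≤ lam v) :
    Sys (fun e => pj (nb s t A U b) b (s e)) (fun e => pj (nb s t A U b) b (t e))
      (far s t A b) (U \ nb s t A U b) w (colc b col) where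
  ends e he := by
    rw [mem_far] at he
    exact ⟨pj_mem hS hb (hS.ends e he.1).1, pj_mem hS hb (hS.ends e he.1).2⟩
  bip e he := by
    rw [mem_far] at he
    rw [colc_pj hS he.2.1, colc_pj hS he.2.2]
    exact hS.bip e he.1
  unit e he := hS.unit e (mem_far.1 he).1
  cons J hJ h := by
    rw [bd_push (root_notMem_nb hS)] at h
    exact contract_cons hS hb hd h0 J hJ h

theorem dist_contract (hS : Sys s t A U w col) (hb : b ∈ U) (hd : IsDist s t A U w b lam)
    (h0 : ∀ v ∈ U, 0 ≤ lam v) :
    IsDist (fun e => pj (nb s t A U b) b (s e)) (fun e => pj (nb s t A U b) b (t e))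
      (far s t A b) (U \ nb s t A U b) w b (lamc b lam) := by
  have hbN := root_notMem_nb (b := b) hS
  intro v hv
  rw [mem_sdiff] at hv
  by_cases hvb : v = b
  · subst hvb
    unfold lamc
    rw [if_pos rfl]
    refine ⟨⟨∅, empty_subset _, by rw [bd_empty, fun_two], wt_empty w⟩, fun J hJ h => ?_⟩
    rw [bd_push hbN, fun_two] at h
    exact contract_cons hS hb hd h0 J hJ h
  · unfold lamc
    rw [if_neg hvb]
    have hlow : ∀ J ⊆ far s t A b,
        bd (fun e => pj (nb s t A U b) b (s e)) (fun e => pj (nb s t A U b) b (t e)) J =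
          pt b + pt v → lam v - 1 ≤ wt w J := by
      intro J hJ h
      rw [bd_push hbN] at h
      have := contract_dist hS hb hd h0 hv.1 hv.2 hvb J hJ h
      linarith
    refine ⟨?_, hlow⟩
    obtain ⟨J, hJ, hJb, hJw⟩ := (hd v hv.1).1
    have hsub : J ∩ far s t A b ⊆ J := inter_subset_left
    have hstar : push (nb s t A U b) b (bd s t (J \ (J ∩ far s t A b))) = 0 := by
      rw [← bd_push hbN]
      unfold bd
      refine sum_eq_zero fun e he => ?_
      rw [mem_sdiff, mem_inter] at he
      have heJ := he.1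
      have heA := hJ heJ
      have hinc : s e = b ∨ t e = b := by
        by_contra hcon
        push Not at hcon
        exact he.2 ⟨heJ, mem_far.2 ⟨heA, hcon.1, hcon.2⟩⟩
      rcases hinc with h | h
      · have h1 : t e ∈ nb s t A U b :=
          mem_nb.2 ⟨(hS.ends e heA).2, e, heA, Or.inl ⟨h, rfl⟩⟩
        simp only
        unfold pj
        rw [if_pos h1, h, if_neg hbN, fun_two]
      · have h1 : s e ∈ nb s t A U b :=
          mem_nb.2 ⟨(hS.ends e heA).1, e, heA, Or.inr ⟨rfl, h⟩⟩
        simp only
        unfold pj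
        rw [if_pos h1, h, if_neg hbN, fun_two]
    have hbd' : bd (fun e => pj (nb s t A U b) b (s e)) (fun e => pj (nb s t A U b) b (t e))
        (J ∩ far s t A b) = pt b + pt v := by
      rw [bd_push hbN]
      have h1 : bd s t J = bd s t (J \ (J ∩ far s t A b)) + bd s t (J ∩ far s t A b) := by
        rw [← bd_union _ _ sdiff_disjoint, sdiff_union_of_subset hsub]
      have h2 : push (nb s t A U b) b (bd s t J) = pt b + pt v := by
        rw [hJb, push_add, push_pt hbN, push_pt hbN]
        unfold pj
        rw [if_neg hbN, if_neg hv.2]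
      rw [h1, push_add, hstar, zero_add] at h2
      exact h2
    have hge := hlow _ inter_subset_right hbd'
    refine ⟨J ∩ far s t A b, inter_subset_right, hbd', ?_⟩
    have hle : 1 ≤ wt w (J \ (J ∩ far s t A b)) := by
      have hne : (J \ (J ∩ far s t A b)).Nonempty := by
        rw [nonempty_iff_ne_empty]
        intro h1
        have h2 : J ⊆ far s t A b := by
          intro e he
          by_contra hcon
          have : e ∈ J \ (J ∩ far s t A b) := by
            rw [mem_sdiff, mem_inter]
            exact ⟨he, fun h => hcon h.2⟩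
          rw [h1] at this
          exact notMem_empty e this
        have h3 := bd_far h2
        rw [hJb, Pi.add_apply, pt_self, pt_ne (Ne.symm hvb), add_zero] at h3
        revert h3; decide
      have hpos : ∀ e ∈ J \ (J ∩ far s t A b), w e = 1 := by
        intro e he
        rw [mem_sdiff, mem_inter] at he
        refine star_pos hS hd h0 (hJ he.1) ?_
        by_contra hcon
        push Not at hcon
        exact he.2 ⟨he.1, mem_far.2 ⟨hJ he.1, hcon.1, hcon.2⟩⟩
      unfold wt
      rw [sum_congr rfl hpos, sum_const, nsmul_eq_mul, mul_one]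
      exact_mod_cast hne.card_pos
    have h4 : wt w (J \ (J ∩ far s t A b)) = wt w J - wt w (J ∩ far s t A b) := wt_sdiff w hsub
    rw [hJw] at h4
    linarith

/-- Steps of the contracted graph. -/
theorem conn_down (hS : Sys s t A U w col) (hb : b ∈ U) (hd : IsDist s t A U w b lam)
    (h0 : ∀ v ∈ U, 0 ≤ lam v) {i : ℤ} {x y : V} (hx : x ∈ U)
    (hxy : 1 ≤ i ∨ x ≠ b) (h : Conn s t A lam i x y) :
    Conn (fun e => pj (nb s t A U b) b (s e)) (fun e => pj (nb s t A U b) b (t e))
      (far s t A b) (lamc b lam) (i - 1) (pj (nb s t A U b) b x) (pj (nb s t A U b) b y) ∧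
      y ∈ U ∧ (1 ≤ i ∨ y ≠ b) := by
  induction h with
  | refl => exact ⟨Relation.ReflTransGen.refl, hx, hxy⟩
  | @tail y z _ hyz ih =>
    obtain ⟨h1, h2, h3⟩ := ih
    obtain ⟨hly, hlz, e, he, hends⟩ := hyz
    have hzU : z ∈ U := by
      rcases hends with ⟨_, h⟩ | ⟨h, _⟩
      · rw [← h]; exact (hS.ends e he).2
      · rw [← h]; exact (hS.ends e he).1
    have hlb := lam_root hb hd h0
    by_cases hstar : s e = b ∨ t e = b
    · -- then one of `y`, `z` is `b` and the other one a neighbour
      have hi : 1 ≤ i := by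
        rcases hends with ⟨hs, ht⟩ | ⟨hs, ht⟩
        · rcases hstar with h | h
          · have : z ∈ nb s t A U b := mem_nb.2 ⟨hzU, e, he, Or.inl ⟨h, ht⟩⟩
            rw [lam_nb hS hb hd h0 this] at hlz
            exact hlz
          · have : y ∈ nb s t A U b := mem_nb.2 ⟨h2, e, he, Or.inr ⟨hs, h⟩⟩
            rw [lam_nb hS hb hd h0 this] at hly
            exact hly
        · rcases hstar with h | h
          · have : y ∈ nb s t A U b := mem_nb.2 ⟨h2, e, he, Or.inl ⟨h, ht⟩⟩
            rw [lam_nb hS hb hd h0 this] at hly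
            exact hly
          · have : z ∈ nb s t A U b := mem_nb.2 ⟨hzU, e, he, Or.inr ⟨hs, h⟩⟩
            rw [lam_nb hS hb hd h0 this] at hlz
            exact hlz
      have hpp : pj (nb s t A U b) b y = pj (nb s t A U b) b z := by
        have hbN := root_notMem_nb (b := b) hS
        rcases hends with ⟨hs, ht⟩ | ⟨hs, ht⟩
        · rcases hstar with h | h
          · have h5 : z ∈ nb s t A U b := mem_nb.2 ⟨hzU, e, he, Or.inl ⟨h, ht⟩⟩
            have h6 : y = b := by rw [← hs, h]
            unfold pj
            rw [if_pos h5, h6, if_neg hbN]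
          · have h5 : y ∈ nb s t A U b := mem_nb.2 ⟨h2, e, he, Or.inr ⟨hs, h⟩⟩
            have h6 : z = b := by rw [← ht, h]
            unfold pj
            rw [if_pos h5, h6, if_neg hbN]
        · rcases hstar with h | h
          · have h5 : y ∈ nb s t A U b := mem_nb.2 ⟨h2, e, he, Or.inl ⟨h, ht⟩⟩
            have h6 : z = b := by rw [← hs, h]
            unfold pj
            rw [if_pos h5, h6, if_neg hbN]
          · have h5 : z ∈ nb s t A U b := mem_nb.2 ⟨hzU, e, he, Or.inr ⟨hs, h⟩⟩
            have h6 : y = b := by rw [← ht, h]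
            unfold pj
            rw [if_pos h5, h6, if_neg hbN]
      rw [← hpp]
      exact ⟨h1, hzU, Or.inl hi⟩
    · push Not at hstar
      have hyb : y ≠ b := by
        rcases hends with ⟨hs, ht⟩ | ⟨hs, ht⟩
        · rw [← hs]; exact hstar.1
        · rw [← ht]; exact hstar.2
      have hzb : z ≠ b := by
        rcases hends with ⟨hs, ht⟩ | ⟨hs, ht⟩
        · rw [← ht]; exact hstar.2
        · rw [← hs]; exact hstar.1
      refine ⟨h1.tail ⟨?_, ?_, e, mem_far.2 ⟨he, hstar.1, hstar.2⟩, ?_⟩, hzU, Or.inr hzb⟩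
      · rw [lamc_pj hS hb hd h0 hyb]; linarith
      · rw [lamc_pj hS hb hd h0 hzb]; linarith
      · rcases hends with ⟨hs, ht⟩ | ⟨hs, ht⟩
        · exact Or.inl ⟨by simp only [hs], by simp only [ht]⟩
        · exact Or.inr ⟨by simp only [hs], by simp only [ht]⟩

/-- A vertex is connected to its image. -/
theorem conn_pj (hS : Sys s t A U w col) (hb : b ∈ U) (hd : IsDist s t A U w b lam)
    (h0 : ∀ v ∈ U, 0 ≤ lam v) {i : ℤ} {x : V} (hi : pj (nb s t A U b) b x = b → 1 ≤ i) :
    Conn s t A lam i x (pj (nb s t A U b) b x) := by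
  by_cases hxN : x ∈ nb s t A U b
  · have h1 : pj (nb s t A U b) b x = b := by unfold pj; rw [if_pos hxN]
    have h2 := hi h1
    rw [h1]
    obtain ⟨_, e, he, h3⟩ := mem_nb.1 hxN
    refine Relation.ReflTransGen.single ⟨?_, ?_, e, he, h3.symm⟩
    · rw [lam_nb hS hb hd h0 hxN]; exact h2
    · rw [lam_root hb hd h0]; linarith
  · have h1 : pj (nb s t A U b) b x = x := by unfold pj; rw [if_neg hxN]
    rw [h1]
    exact Relation.ReflTransGen.refl

theorem conn_up (hS : Sys s t A U w col) (hb : b ∈ U) (hd : IsDist s t A U w b lam)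
    (h0 : ∀ v ∈ U, 0 ≤ lam v) {i : ℤ} {x q : V}
    (hx : 1 ≤ i ∨ pj (nb s t A U b) b x ≠ b)
    (h : Conn (fun e => pj (nb s t A U b) b (s e)) (fun e => pj (nb s t A U b) b (t e))
      (far s t A b) (lamc b lam) (i - 1) (pj (nb s t A U b) b x) q) :
    Conn s t A lam i x q ∧ (1 ≤ i ∨ q ≠ b) := by
  induction h with
  | refl =>
    refine ⟨conn_pj hS hb hd h0 fun h => ?_, hx⟩
    rcases hx with h1 | h1
    · exact h1
    · exact absurd h h1
  | @tail y z _ hyz ih =>
    obtain ⟨h1, _⟩ := ih
    obtain ⟨hly, hlz, e, he, hends⟩ := hyz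
    rw [mem_far] at he
    have hyi : y = b → 1 ≤ i := by
      rintro rfl
      unfold lamc at hly
      rw [if_pos rfl] at hly
      linarith
    have hzi : z = b → 1 ≤ i := by
      rintro rfl
      unfold lamc at hlz
      rw [if_pos rfl] at hlz
      linarith
    have key : ∀ p q : V, p ≠ b → q ≠ b → pj (nb s t A U b) b p = y →
        pj (nb s t A U b) b q = z → (∃ e ∈ A, (s e = p ∧ t e = q) ∨ (s e = q ∧ t e = p)) →
        Conn s t A lam i x z := by
      intro p q hp hq hpy hqz hpq
      have h2 : Conn s t A lam i p y := by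
        rw [← hpy]
        exact conn_pj hS hb hd h0 fun h => hyi (by rw [← hpy, h])
      have h3 : Conn s t A lam i q z := by
        rw [← hqz]
        exact conn_pj hS hb hd h0 fun h => hzi (by rw [← hqz, h])
      have h4 : Step s t A lam i p q := by
        refine ⟨?_, ?_, hpq⟩
        · have := lamc_pj hS hb hd h0 hp
          rw [hpy] at this
          linarith
        · have := lamc_pj hS hb hd h0 hq
          rw [hqz] at this
          linarith
      exact ((h1.trans h2.symm).tail h4).trans h3
    refine ⟨?_, ?_⟩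
    · rcases hends with ⟨hs, ht⟩ | ⟨hs, ht⟩
      · exact key (s e) (t e) he.2.1 he.2.2 hs ht ⟨e, he.1, Or.inl ⟨rfl, rfl⟩⟩
      · exact key (t e) (s e) he.2.2 he.2.1 ht hs ⟨e, he.1, Or.inr ⟨rfl, rfl⟩⟩
    · by_cases hzb : z = b
      · exact Or.inl (hzi hzb)
      · exact Or.inr hzb

/-- The step of the induction. -/
theorem concl_contract (hS : Sys s t A U w col) (hb : b ∈ U) (hd : IsDist s t A U w b lam)
    (h0 : ∀ v ∈ U, 0 ≤ lam v)
    (IH : ∀ (s' t' : E → V) (A' : Finset E) (U' : Finset V) (col' : V → Bool) (r' : V)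
      (lam' : V → ℤ), U'.card < U.card → Sys s' t' A' U' w col' → r' ∈ U' →
      IsDist s' t' A' U' w r' lam' → Concl s' t' A' U' w r' lam') :
    Concl s t A U w b lam := by
  have hbN := root_notMem_nb (b := b) hS
  have hlb := lam_root hb hd h0
  rcases A.eq_empty_or_nonempty with hA | hA
  · subst hA
    refine ⟨fun e he => absurd he (notMem_empty e), fun i u hu hui =>
      ⟨fun _ e he => absurd he (notMem_empty e), fun hr => ?_⟩⟩
    exfalso
    apply hr
    obtain ⟨J, hJ, hJb, _⟩ := (hd u hu).1
    rw [subset_empty] at hJ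
    rw [hJ, bd_empty] at hJb
    have hub : b = u := by
      by_contra hne
      exact pt_ne_pt hne hJb.symm
    rw [mem_cmp, ← hub]
    exact ⟨hb, Relation.ReflTransGen.refl⟩
  -- the set of neighbours is not empty
  have hN : (nb s t A U b).Nonempty := by
    obtain ⟨e0, he0⟩ := hA
    have hx : ∃ x ∈ U, x ≠ b := by
      by_cases h : s e0 = b
      · refine ⟨t e0, (hS.ends e0 he0).2, fun h' => hS.bip e0 he0 ?_⟩
        rw [h, h']
      · exact ⟨s e0, (hS.ends e0 he0).1, h⟩
    obtain ⟨x, hxU, hxb⟩ := hx
    obtain ⟨J, hJ, hJb, _⟩ := (hd x hxU).1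
    by_contra hcon
    rw [not_nonempty_iff_eq_empty] at hcon
    have h1 : J ⊆ far s t A b := by
      intro e he
      rw [mem_far]
      refine ⟨hJ he, fun h => ?_, fun h => ?_⟩
      · have : t e ∈ nb s t A U b :=
          mem_nb.2 ⟨(hS.ends e (hJ he)).2, e, hJ he, Or.inl ⟨h, rfl⟩⟩
        rw [hcon] at this
        exact notMem_empty _ this
      · have : s e ∈ nb s t A U b :=
          mem_nb.2 ⟨(hS.ends e (hJ he)).1, e, hJ he, Or.inr ⟨rfl, h⟩⟩
        rw [hcon] at this
        exact notMem_empty _ this
    have h2 := bd_far h1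
    rw [hJb, Pi.add_apply, pt_self, pt_ne (Ne.symm hxb), add_zero] at h2
    revert h2; decide
  have hNU : nb s t A U b ⊆ U := fun x hx => (mem_nb.1 hx).1
  have hcard : (U \ nb s t A U b).card < U.card :=
    card_lt_card (sdiff_ssubset hNU hN)
  obtain ⟨hc1, hc2⟩ := IH _ _ _ _ _ b _ hcard (sys_contract hS hb hd h0)
    (mem_sdiff.2 ⟨hb, hbN⟩) (dist_contract hS hb hd h0)
  refine ⟨?_, ?_⟩
  · intro e he
    by_cases hstar : s e = b ∨ t e = b
    · rcases hstar with h | h
      · have h1 : t e ∈ nb s t A U b := mem_nb.2 ⟨(hS.ends e he).2, e, he, Or.inl ⟨h, rfl⟩⟩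
        right
        rw [lam_nb hS hb hd h0 h1, h, hlb]
        rfl
      · have h1 : s e ∈ nb s t A U b := mem_nb.2 ⟨(hS.ends e he).1, e, he, Or.inr ⟨rfl, h⟩⟩
        left
        rw [lam_nb hS hb hd h0 h1, h, hlb]
        rfl
    · push Not at hstar
      have h1 := hc1 e (mem_far.2 ⟨he, hstar.1, hstar.2⟩)
      simp only at h1
      rw [lamc_pj hS hb hd h0 hstar.1, lamc_pj hS hb hd h0 hstar.2] at h1
      rcases h1 with h1 | h1
      · left; linarith
      · right; linarith
  · intro i u hu hui
    by_cases hub : u = b ∧ i < 1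
    · -- the component is `{b}`
      obtain ⟨rfl, hi⟩ := hub
      have hDb : ∀ x, x ∈ cmp s t A U lam i u → x = u := by
        intro x hx
        rw [mem_cmp] at hx
        obtain ⟨-, hx⟩ := hx
        induction hx with
        | refl => rfl
        | @tail y z _ hyz ih =>
          exfalso
          obtain ⟨_, hlz, e, he, hends⟩ := hyz
          rw [ih] at hends
          have hzN : z ∈ nb s t A U u := by
            rcases hends with ⟨hs, ht⟩ | ⟨hs, ht⟩
            · exact mem_nb.2 ⟨by rw [← ht]; exact (hS.ends e he).2, e, he, Or.inl ⟨hs, ht⟩⟩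
            · exact mem_nb.2 ⟨by rw [← hs]; exact (hS.ends e he).1, e, he, Or.inr ⟨hs, ht⟩⟩
          rw [lam_nb hS hb hd h0 hzN] at hlz
          omega
      have hbD : u ∈ cmp s t A U lam i u := mem_cmp.2 ⟨hu, Relation.ReflTransGen.refl⟩
      refine ⟨fun _ e he hcr => ?_, fun h => absurd hbD h⟩
      refine star_pos hS hd h0 he ?_
      rcases hcr with ⟨h1, _⟩ | ⟨_, h1⟩
      · exact Or.inl (hDb _ h1)
      · exact Or.inr (hDb _ h1)
    · have hui' : 1 ≤ i ∨ u ≠ b := by
        by_cases h : u = b
        · left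
          by_contra h1
          exact hub ⟨h, by omega⟩
        · exact Or.inr h
      have hpu : 1 ≤ i ∨ pj (nb s t A U b) b u ≠ b := by
        by_cases hi : 1 ≤ i
        · exact Or.inl hi
        · right
          intro h
          unfold pj at h
          by_cases huN : u ∈ nb s t A U b
          · rw [lam_nb hS hb hd h0 huN] at hui
            exact hi hui
          · rw [if_neg huN] at h
            rcases hui' with h1 | h1
            · exact hi h1
            · exact h1 h
      -- the components correspond to each other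
      have hDD : ∀ x ∈ U, x ∈ cmp s t A U lam i u ↔ pj (nb s t A U b) b x ∈
          cmp (fun e => pj (nb s t A U b) b (s e)) (fun e => pj (nb s t A U b) b (t e))
            (far s t A b) (U \ nb s t A U b) (lamc b lam) (i - 1) (pj (nb s t A U b) b u) := by
        intro x hx
        rw [mem_cmp, mem_cmp]
        constructor
        · rintro ⟨_, h⟩
          exact ⟨pj_mem hS hb hx, (conn_down hS hb hd h0 hu hui' h).1⟩
        · rintro ⟨_, h⟩
          obtain ⟨h1, h2⟩ := conn_up hS hb hd h0 hpu h
          refine ⟨hx, h1.trans (Conn.symm (conn_pj hS hb hd h0 fun h3 => ?_))⟩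
          rcases h2 with h2 | h2
          · exact h2
          · exact absurd h3 h2
      have hlu : lamc b lam (pj (nb s t A U b) b u) ≤ i - 1 := by
        by_cases h : u = b
        · rw [h]
          unfold pj lamc
          rw [if_neg hbN, if_pos rfl]
          rcases hui' with h1 | h1
          · linarith
          · exact absurd h h1
        · rw [lamc_pj hS hb hd h0 h]; linarith
      obtain ⟨hc3, hc4⟩ := hc2 (i - 1) (pj (nb s t A U b) b u) (pj_mem hS hb hu) hlu
      have hpb : pj (nb s t A U b) b b = b := by unfold pj; rw [if_neg hbN]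
      have hbD := hDD b hb
      rw [hpb] at hbD
      -- crossing edges
      have hcr : ∀ e ∈ A, Cr s t (cmp s t A U lam i u) e → e ∈ far s t A b ∧
          Cr (fun e => pj (nb s t A U b) b (s e)) (fun e => pj (nb s t A U b) b (t e))
            (cmp (fun e => pj (nb s t A U b) b (s e)) (fun e => pj (nb s t A U b) b (t e))
            (far s t A b) (U \ nb s t A U b) (lamc b lam) (i - 1) (pj (nb s t A U b) b u)) e := by
        intro e he hcr
        have h1 := hDD _ (hS.ends e he).1
        have h2 := hDD _ (hS.ends e he).2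
        unfold Cr at hcr
        rw [h1, h2] at hcr
        refine ⟨?_, hcr⟩
        rw [mem_far]
        by_contra hcon
        have hstar : s e = b ∨ t e = b := by
          by_contra h3
          push Not at h3
          exact hcon ⟨he, h3.1, h3.2⟩
        have hpp : pj (nb s t A U b) b (s e) = pj (nb s t A U b) b (t e) := by
          rcases hstar with h | h
          · have h1 : t e ∈ nb s t A U b := mem_nb.2 ⟨(hS.ends e he).2, e, he, Or.inl ⟨h, rfl⟩⟩
            unfold pj
            rw [if_pos h1, h, if_neg hbN]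
          · have h1 : s e ∈ nb s t A U b := mem_nb.2 ⟨(hS.ends e he).1, e, he, Or.inr ⟨rfl, h⟩⟩
            unfold pj
            rw [if_pos h1, h, if_neg hbN]
        rw [hpp] at hcr
        rcases hcr with ⟨h3, h4⟩ | ⟨h3, h4⟩
        · exact h4 h3
        · exact h3 h4
      have hcr' : ∀ e ∈ far s t A b,
          Cr (fun e => pj (nb s t A U b) b (s e)) (fun e => pj (nb s t A U b) b (t e))
            (cmp (fun e => pj (nb s t A U b) b (s e)) (fun e => pj (nb s t A U b) b (t e))
            (far s t A b) (U \ nb s t A U b) (lamc b lam) (i - 1) (pj (nb s t A U b) b u)) e →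
          Cr s t (cmp s t A U lam i u) e := by
        intro e he hcr
        have heA := (mem_far.1 he).1
        unfold Cr
        rw [hDD _ (hS.ends e heA).1, hDD _ (hS.ends e heA).2]
        exact hcr
      refine ⟨fun hbm e he hc => ?_, fun hbm => ?_⟩
      · obtain ⟨h1, h2⟩ := hcr e he hc
        exact hc3 (hbD.1 hbm) e h1 h2
      · obtain ⟨f, hf, hf1, hf2, hf3⟩ := hc4 (fun h => hbm (hbD.2 h))
        refine ⟨f, (mem_far.1 hf).1, hcr' f hf hf1, hf2, fun e he hc hwe => ?_⟩
        obtain ⟨h1, h2⟩ := hcr e he hc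
        exact hf3 e h1 h2 hwe

end Pool.Agent.Sebo
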